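import Pool.Agent.Y228.PL.PGen5
import Pool.Agent.TH216.G3.HDP

/-!
# Four variables: generic coefficients, p-adic zeta functions and Poincare series
-/

set_option autoImplicit false

namespace Pool.Agent.Y228.PL

open MvPolynomial MeasureTheory Filter Topology Pool.Agent.H628R4.TP
open Pool.Agent.W425.PZ Pool.Agent.W206.CU
open Pool.Agent.W427.SMC (igusaZeta)
open Pool.Agent.W425.ND (spa)
open Pool.Agent.TH216.MF (pole_of_poincare_ord)
open Pool.Agent.TH216.HD (InPoly)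
open Pool.Agent.TH216.HDL (Vertices)

variable {r : ℕ}

lemma sum_fin {R : Type} [CommRing R] (h : MvPolynomial (Fin 4) R) (d : ℕ)
    (hh : h.IsHomogeneous d) : ∀ w ∈ h.support, ∑ i, w i = d := by
  intro w hw
  have h1 := hh (mem_support_iff.1 hw)
  rw [← h1, Finsupp.weight_apply, Finsupp.sum_fintype _ _ (by simp)]
  simp

/-- rational coefficients: the zeta functions over `(p ^ k ℤ_p) ^ 4`, `k = 1`, or all `k` for
forms -/
theorem genQ5 (hr : 0 < r)
    (v : Fin r → Fin 4 → ℕ) (hV : Vertices v) (hv : Function.Injective v) (hv0 : ∀ j, v j ≠ 0)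
    (h : MvPolynomial (Fin 4) ℚ) (hh : ∀ w ∈ h.support, InPoly v w) :
    ∃ g : MvPolynomial (Fin r) ℚ, g ≠ 0 ∧ ∀ c : Fin r → ℚ, eval c g ≠ 0 →
      ∀ k : ℕ, (k = 1 ∨ ∃ d, (∀ j, ∑ i, v j i = d) ∧ h.IsHomogeneous d) →
      ∃ S : Finset ℕ, ∀ (p : ℕ) [Fact p.Prime], p ∉ S →
      ∀ [MeasurableSpace (Fin 4 → PadicInt p)] [BorelSpace (Fin 4 → PadicInt p)],
      ∀ F : ℂ → ℂ, MeromorphicOn F Set.univ →
        (∀ s : ℂ, 0 < s.re →
          F s = ∫ x in {x : Fin 4 → PadicInt p | ∀ i, ‖x i‖ ≤ (p : ℝ) ^ (-(k : ℤ))},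
                  ((‖MvPolynomial.eval₂ (algebraMap ℚ (Padic p))
                    (fun i => ((x i : PadicInt p) : Padic p)) (spa v c + h)‖ : ℝ) : ℂ) ^ s
                  ∂(MeasureTheory.Measure.addHaar : MeasureTheory.Measure (Fin 4 → PadicInt p))) →
        ∀ s₀ : ℂ, meromorphicOrderAt F s₀ < 0 → ∀ b : Polynomial ℂ,
          IsLocalBFunction (MvPolynomial.map (algebraMap ℚ ℂ) (spa v c + h)) b →
          b.eval (s₀.re : ℂ) = 0 := by
  obtain ⟨g, hg, hgc⟩ := pgen5 hr v hV hv hv0 h hh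
  refine ⟨g, hg, fun c hc k hk => ?_⟩
  obtain ⟨h1, h2⟩ := hgc c hc
  rcases hk with rfl | ⟨d, hd, hd'⟩
  · exact h1
  · obtain ⟨S, hS⟩ := h2 d hd (sum_fin h d hd')
    exact ⟨S, fun p hpf hp _ _ F hF hFI s₀ hs₀ => hS p hp k F hF hFI s₀ hs₀⟩

/-- integral coefficients, forms, the normalised zeta function -/
theorem genZ5 (hr : 0 < r) (d : ℕ)
    (v : Fin r → Fin 4 → ℕ) (hV : Vertices v) (hv : Function.Injective v) (hv0 : ∀ j, v j ≠ 0)
    (hd : ∀ j, ∑ i, v j i = d)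
    (h : MvPolynomial (Fin 4) ℤ) (hhd : h.IsHomogeneous d) (hh : ∀ w ∈ h.support, InPoly v w) :
    ∃ g : MvPolynomial (Fin r) ℚ, g ≠ 0 ∧ ∀ c : Fin r → ℤ, eval (fun j => (c j : ℚ)) g ≠ 0 →
      ∃ S : Finset ℕ, ∀ (p : ℕ) [Fact p.Prime], p ∉ S → ∀ Z : ℂ → ℂ, MeromorphicOn Z Set.univ →
        (∀ s : ℂ, 0 < s.re → Z s = igusaZeta p (spa v c + h) s) →
        ∀ s₀ : ℂ, meromorphicOrderAt Z s₀ < 0 → ∀ b : Polynomial ℂ,
          IsLocalBFunction (MvPolynomial.map (Int.castRingHom ℂ) (spa v c + h)) b →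
          b.eval (s₀.re : ℂ) = 0 := by
  obtain ⟨g1, hg1, h1⟩ := pgen5 hr v hV hv hv0
    (MvPolynomial.map (Int.castRingHom ℚ) h)
    (fun w hw => hh w (MvPolynomial.support_map_subset _ _ hw))
  refine ⟨g1, hg1, fun c hc => ?_⟩
  obtain ⟨S, hS⟩ := (h1 (fun j => (c j : ℚ)) hc).2 d hd
    (fun w hw => sum_fin h d hhd w (MvPolynomial.support_map_subset _ _ hw))
  have hmap : MvPolynomial.map (Int.castRingHom ℚ) (spa v c + h) =
      spa v (fun j => (c j : ℚ)) + MvPolynomial.map (Int.castRingHom ℚ) h := by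
    rw [map_add]
    congr 1
    unfold spa
    simp
  have hmapC : MvPolynomial.map (algebraMap ℚ ℂ)
      (spa v (fun j => (c j : ℚ)) + MvPolynomial.map (Int.castRingHom ℚ) h) =
      MvPolynomial.map (Int.castRingHom ℂ) (spa v c + h) := by
    rw [← hmap, MvPolynomial.map_map]
    congr 1
  refine ⟨S, fun p hpf hpS Z hZ hZi s₀ hs₀ => ?_⟩
  let _ : MeasurableSpace (Fin 4 → PadicInt p) := borel _
  have _ : BorelSpace (Fin 4 → PadicInt p) := ⟨rfl⟩
  set V : ℂ := (((Measure.addHaar : Measure (Fin 4 → PadicInt p)) Set.univ).toReal : ℂ) with hV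
  have hV0 : V ≠ 0 := by
    have : (0 : ℝ) < ((Measure.addHaar : Measure (Fin 4 → PadicInt p)) Set.univ).toReal :=
      ENNReal.toReal_pos ((isOpen_univ.measure_pos _ Set.univ_nonempty).ne') (measure_ne_top _ _)
    rw [hV]
    exact_mod_cast this.ne'
  have hord : meromorphicOrderAt (fun s => V * Z s) s₀ = meromorphicOrderAt Z s₀ := by
    have h5 := meromorphicOrderAt_mul_of_ne_zero (f := Z) (g := fun _ : ℂ => V)
      (analyticAt_const (x := s₀)) hV0
    exact h5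
  have h6 := hS p hpS 0 (fun s => V * Z s)
    (fun s hs => (MeromorphicAt.const V s).mul (hZ s hs))
    (fun s hs => by
      have h3 : {x : Fin 4 → PadicInt p | ∀ i, ‖x i‖ ≤ (p : ℝ) ^ (-((0 : ℕ) : ℤ))} =
          Set.univ := by
        ext x
        simp only [Set.mem_ofPred_eq, Set.mem_univ, iff_true]
        intro i
        have := PadicInt.norm_le_one (x i)
        simpa using this
      rw [h3, setIntegral_univ, hZi s hs, ← integral_haar p (spa v c + h) s, hmap]) s₀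
    (by rw [hord]; exact hs₀)
  rw [hmapC] at h6
  exact h6

/-- poles of the Poincare series, forms -/
theorem genP5 (hr : 0 < r) (d : ℕ)
    (v : Fin r → Fin 4 → ℕ) (hV : Vertices v) (hv : Function.Injective v) (hv0 : ∀ j, v j ≠ 0)
    (hd : ∀ j, ∑ i, v j i = d)
    (h : MvPolynomial (Fin 4) ℤ) (hhd : h.IsHomogeneous d) (hh : ∀ w ∈ h.support, InPoly v w) :
    ∃ g : MvPolynomial (Fin r) ℚ, g ≠ 0 ∧
      ∀ c : Fin r → ℤ, MvPolynomial.eval (fun j => (c j : ℚ)) g ≠ 0 →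
      ∃ S : Finset ℕ, ∀ p : ℕ, p.Prime → p ∉ S →
        ∀ (T₀ : ℂ) (m : ℕ), 0 < m → IsPoleOfOrder (poincare p (spa v c + h)) T₀ m →
        ∀ b : Polynomial ℂ,
          IsLocalBFunction (MvPolynomial.map (Int.castRingHom ℂ) (spa v c + h)) b →
          b.eval ((-Real.log ‖T₀‖ / Real.log p : ℝ) : ℂ) = 0 := by
  obtain ⟨g1, hg1, h1⟩ := genZ5 hr d v hV hv hv0 hd h hhd hh
  obtain ⟨g2, hg2, h2⟩ := Pool.Agent.W425.GN.gen_ne (F := ℚ) hr v hv
    (MvPolynomial.map (Int.castRingHom ℚ) h)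
  refine ⟨g1 * g2, mul_ne_zero hg1 hg2, fun c hc => ?_⟩
  rw [map_mul] at hc
  obtain ⟨S, hS⟩ := h1 c (left_ne_zero_of_mul hc)
  have hmap : MvPolynomial.map (Int.castRingHom ℚ) (spa v c + h) =
      spa v (fun j => (c j : ℚ)) + MvPolynomial.map (Int.castRingHom ℚ) h := by
    rw [map_add]
    congr 1
    unfold spa
    simp
  have hmapC : MvPolynomial.map (algebraMap ℚ ℂ)
      (spa v (fun j => (c j : ℚ)) + MvPolynomial.map (Int.castRingHom ℚ) h) =
      MvPolynomial.map (Int.castRingHom ℂ) (spa v c + h) := by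
    rw [← hmap, MvPolynomial.map_map]
    congr 1
  have hne : spa v c + h ≠ 0 := by
    intro h0
    refine h2 (fun j => ((c j : ℚ) : ℂ)) ?_ ?_
    · have h5 := MvPolynomial.aeval_algebraMap_apply ℂ (fun j => (c j : ℚ)) g2
      intro h6
      apply right_ne_zero_of_mul hc
      have h7 : ((MvPolynomial.eval (fun j => (c j : ℚ)) g2 : ℚ) : ℂ) = 0 := by
        rw [← h6]
        exact h5.symm
      exact_mod_cast h7
    · have h8 := congrArg (MvPolynomial.map (Int.castRingHom ℂ)) h0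
      rw [← hmapC, map_zero, map_add] at h8
      rw [← h8]
      congr 1
      unfold spa
      simp
  refine ⟨S, fun p hp hpS T₀ m hm hP => ?_⟩
  have : Fact p.Prime := ⟨hp⟩
  obtain ⟨Z, s₀, hZ, hZi, hZo, hre⟩ := pole_of_poincare_ord p (spa v c + h)
    (Pool.Agent.W195.PZ.null hne) hm hP
  have hneg : meromorphicOrderAt Z s₀ < 0 := lt_of_le_of_lt hZo (by
    have : (-(m : ℤ) : ℤ) < 0 := by omega
    exact_mod_cast this)
  have h3 := hS p hpS Z hZ hZi s₀ hneg
  rw [hre] at h3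
  exact h3

end Pool.Agent.Y228.PL
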