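import Pool.Agent.Y228.PL.Glk
import Pool.Agent.Y231.N4.F6
import Pool.Agent.W422.LP.Fin

/-!
# Four variables: generic coefficients, p-adic zeta functions
-/

set_option autoImplicit false

namespace Pool.Agent.Y228.PL

open MvPolynomial MeasureTheory Filter
open Pool.Agent.H628R4.TP Pool.Agent.W425.MM Pool.Agent.W425.GN
open Pool.Agent.W425.ND (spa)
open Pool.Agent.W425.PN (qpoly)
open Pool.Agent.W426.SM (gord IsRay face)
open Pool.Agent.W425.BF (B1 BD shf shf_eval shf_ne hz hz_support hz_eq cof spa_add)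
open Pool.Agent.W425.SV (NP RelV Kil1)
open Pool.Agent.TH216.MF
open Pool.Agent.TH216.LX
open Pool.Agent.TH216.MC (pos_of_ray rootsL)
open Pool.Agent.Y231.N4

variable {r : ℕ}

/-- the conclusion, for the coefficient vector `c`: the local zeta function -/
def ConL5 (v : Fin r → Fin 4 → ℕ) (h : MvPolynomial (Fin 4) ℚ) (c : Fin r → ℚ) : Prop :=
      ∃ S : Finset ℕ, ∀ (p : ℕ) [Fact p.Prime], p ∉ S →
      ∀ [MeasurableSpace (Fin 4 → PadicInt p)] [BorelSpace (Fin 4 → PadicInt p)],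
      ∀ F : ℂ → ℂ, MeromorphicOn F Set.univ →
        (∀ s : ℂ, 0 < s.re →
          F s = ∫ x in {x : Fin 4 → PadicInt p | ∀ i, ‖x i‖ ≤ (p : ℝ) ^ (-(1 : ℤ))},
                  ((‖MvPolynomial.eval₂ (algebraMap ℚ (Padic p))
                    (fun i => ((x i : PadicInt p) : Padic p)) (spa v c + h)‖ : ℝ) : ℂ) ^ s
                  ∂(MeasureTheory.Measure.addHaar : MeasureTheory.Measure (Fin 4 → PadicInt p))) →
        ∀ s₀ : ℂ, meromorphicOrderAt F s₀ < 0 → ∀ b : Polynomial ℂ,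
          IsLocalBFunction (MvPolynomial.map (algebraMap ℚ ℂ) (spa v c + h)) b →
          b.eval (s₀.re : ℂ) = 0

/-- the conclusion, for the coefficient vector `c`: the zeta functions of all the `(p ^ k ℤ_p) ^ 4`,
if the degrees are `d` -/
def ConG5 (v : Fin r → Fin 4 → ℕ) (h : MvPolynomial (Fin 4) ℚ) (c : Fin r → ℚ) : Prop :=
    ∀ d : ℕ, (∀ j, ∑ i, v j i = d) → (∀ w ∈ h.support, ∑ i, w i = d) →
      ∃ S : Finset ℕ, ∀ (p : ℕ) [Fact p.Prime], p ∉ S →
      ∀ [MeasurableSpace (Fin 4 → PadicInt p)] [BorelSpace (Fin 4 → PadicInt p)],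
      ∀ (k : ℕ) (F : ℂ → ℂ), MeromorphicOn F Set.univ →
        (∀ s : ℂ, 0 < s.re →
          F s = ∫ x in {x : Fin 4 → PadicInt p | ∀ i, ‖x i‖ ≤ (p : ℝ) ^ (-(k : ℤ))},
                  ((‖MvPolynomial.eval₂ (algebraMap ℚ (Padic p))
                    (fun i => ((x i : PadicInt p) : Padic p)) (spa v c + h)‖ : ℝ) : ℂ) ^ s
                  ∂(MeasureTheory.Measure.addHaar : MeasureTheory.Measure (Fin 4 → PadicInt p))) →
        ∀ s₀ : ℂ, meromorphicOrderAt F s₀ < 0 → ∀ b : Polynomial ℂ,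
          IsLocalBFunction (MvPolynomial.map (algebraMap ℚ ℂ) (spa v c + h)) b →
          b.eval (s₀.re : ℂ) = 0

theorem pgen50 (hr : 0 < r)
    (v : Fin r → Fin 4 → ℕ) (hV : Vert v) (hv : Function.Injective v)
    (hv0 : ∀ j, v j ≠ 0)
    (h : MvPolynomial (Fin 4) ℚ) (hh : ∀ w ∈ h.support, NP v w)
    (hvh : ∀ w ∈ h.support, ∀ j, ¬ ∀ x, w x = v j x) :
    ∃ g : MvPolynomial (Fin r) ℚ, g ≠ 0 ∧ ∀ c : Fin r → ℚ, eval c g ≠ 0 →
      ConL5 v h c ∧ ConG5 v h c := by
  classical
  have hne : NeZero r := ⟨by omega⟩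
  obtain ⟨g1, hg1, h1⟩ := rootsL (F := ℚ) hr v hv hv0 h hh
  obtain ⟨g2, hg2, h2⟩ := gen_nonDF pF4 hr v (we h) (we_np v h hh) (wc h)
  obtain ⟨g4, hg4, h4⟩ := quad_root stM1 stM2 stG v hV hv h hh
  have hg3 : (∏ j : Fin r, (X j : MvPolynomial (Fin r) ℚ)) ≠ 0 :=
    Finset.prod_ne_zero_iff.2 fun j _ => X_ne_zero j
  refine ⟨g4 * (g1 * g2 * ∏ j : Fin r, (X j : MvPolynomial (Fin r) ℚ)),
    mul_ne_zero hg4 (mul_ne_zero (mul_ne_zero hg1 hg2) hg3), fun c hc4 => ?_⟩
  rw [map_mul] at hc4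
  have hc40 : aeval (fun j => ((c j : ℚ) : ℂ)) g4 ≠ 0 := by
    have h0 : aeval (fun j => ((c j : ℚ) : ℂ)) g4 = ((eval c g4 : ℚ) : ℂ) := by
      have h5 := aeval_algebraMap_apply ℂ c g4
      exact h5
    rw [h0]
    exact_mod_cast left_ne_zero_of_mul hc4
  have hc'' := right_ne_zero_of_mul hc4
  rw [map_mul] at hc''
  have hc' := left_ne_zero_of_mul hc''
  have hcne : ∀ j, c j ≠ 0 := by
    have h5 := right_ne_zero_of_mul hc''
    rw [map_prod] at h5
    intro j
    have h6 := Finset.prod_ne_zero_iff.1 h5 j (Finset.mem_univ j)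
    rwa [eval_X] at h6
  have hc : aeval (fun j => ((c j : ℚ) : ℂ)) (g1 * g2) ≠ 0 := by
    have h0 : aeval (fun j => ((c j : ℚ) : ℂ)) (g1 * g2) = ((eval c (g1 * g2) : ℚ) : ℂ) := by
      have h5 := aeval_algebraMap_apply ℂ c (g1 * g2)
      exact h5
    rw [h0]
    exact_mod_cast hc'
  rw [map_mul] at hc
  have hb := h1 _ (left_ne_zero_of_mul hc)
  have hnd := h2 _ (right_ne_zero_of_mul hc)
  have hray := pRAY v (we h) hr (we_np v h hh)
  have hq : qpoly (Fin.append v (we h)) (Fin.append c (wc h)) = spa v c + h := by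
    unfold Pool.Agent.W425.PN.qpoly
    rw [Fin.sum_univ_add]
    simp only [Fin.append_left, Fin.append_right]
    congr 1
    have h3 := h_eq (RingHom.id ℚ) h
    rw [MvPolynomial.map_id] at h3
    exact h3.symm
  have hnq : NonD (Fin.append v (we h)) (fun j => ((Fin.append c (wc h) j : ℚ) : ℂ)) := by
    have h3 := append_map (fun q : ℚ => (q : ℂ)) c (wc h)
    rw [h3]
    exact hnd
  have hnq' : NonD (Fin.append v (we h)) (fun j => algebraMap ℚ ℂ (Fin.append c (wc h) j)) := hnq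
  have hcall : ∀ j, Fin.append c (wc h) j ≠ 0 := by
    intro j
    refine Fin.addCases (fun j => ?_) (fun l => ?_) j
    · rw [Fin.append_left]; exact hcne j
    · rw [Fin.append_right]
      exact mem_support_iff.1 (h.support.equivFin.symm l).2
  have hinj := append_inj v hv h hvh
  have hZ : ZMb 0 (Fin.append v (we h)) (Fin.append c (wc h)) 1 :=
    zmb 0 _ _ 1 one_pos (zmaB _ _ hcall (by omega) hnq')
  obtain ⟨S1, hS1⟩ := Pool.Agent.W422.LP.polesL (Fin.append v (we h)) (Fin.append c (wc h))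
    (by omega) hnq
  obtain ⟨S2, hS2⟩ := padic_regL (by omega) (Fin.append v (we h)) hinj (Fin.append c (wc h)) hZ
  rw [hq] at hS1 hS2
  have hL : ConL5 v h c := by
    refine ⟨S1 ∪ S2, fun p hpf hp _ _ F hF hFI s₀ hs₀ => ?_⟩
    rw [Finset.mem_union, not_or] at hp
    by_cases hs1 : s₀.re = -1
    · intro b hbf
      rw [map_add, map_spa] at hbf
      rw [hs1]
      push_cast
      exact (hb b hbf).1
    obtain ⟨a, ha, hg, hre⟩ := (hS1 p hp.1 (fun _ => 1) F hF hFI s₀ hs₀).resolve_left hs1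
    obtain ⟨hga, hra⟩ := hray a
    rw [hga] at hg hre
    have hgR : ((gord v a : ℕ) : ℝ) ≠ 0 := by exact_mod_cast hg.ne'
    have hgq : ((gord v a : ℕ) : ℚ) ≠ 0 := by exact_mod_cast hg.ne'
    have h6 : ∑ i, a i ≠ gord v a := by
      intro h6
      apply hs1
      rw [hre, h6, div_self hgR]
    set σ : ℚ := ((∑ i, a i : ℕ) : ℚ) / gord v a with hσ
    have hreσ : s₀.re = ((-σ : ℚ) : ℝ) := by
      rw [hre, hσ]
      push_cast
      ring
    -- no pole at a bad level
    have hbad : HypL v σ → HPL v h (-σ) 0 := by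
      intro hLP
      by_contra hcon
      have hp2 : 2 ≤ p := hpf.out.two_le
      have hlog : Real.log p ≠ 0 := (Real.log_pos (by exact_mod_cast (by omega : 1 < p))).ne'
      have h5 := hS2 p hp.2 F hF hFI s₀ hs1 (fun e he he' => by
        refine hb_5 hr v hV hv h (fun w hw => np_inN (hh w hw)) hvh (fun α => HPL v h α 0)
          (fun α hα => relLX v hv hv0 h hh α hα) p hp2 e he he' ((p : ℂ) ^ (-s₀)) ?_ σ
          ⟨hLP, hcon⟩ ?_
        · rw [Ne, Complex.cpow_eq_zero_iff]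
          push Not
          intro h6
          exact absurd h6 (by exact_mod_cast (by omega : p ≠ 0))
        · rw [Complex.norm_natCast_cpow_of_pos (by omega), Real.log_rpow (by positivity),
            Complex.neg_re, hreσ]
          field_simp
          push_cast
          ring)
      exact absurd hs₀ (not_lt.2 h5)
    have fromα : HPL v h (-σ) 0 → ∀ b : Polynomial ℂ, IsLocalBFunction
        (MvPolynomial.map (algebraMap ℚ ℂ) (spa v c + h)) b → b.eval (s₀.re : ℂ) = 0 := by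
      intro hα b hbf
      rw [map_add, map_spa] at hbf
      have h3 := (hb b hbf).2 _ hα
      rw [hreσ, ← h3]
      congr 1
    by_cases h7 : ∑ i, a i = 2 * gord v a
    · rcases stL2 v hr hV with hT | hQ
      · apply fromα
        apply hbad
        right
        refine ⟨?_, hT⟩
        rw [hσ, h7, div_eq_iff hgq]
        push_cast
        ring
      · intro b hbf
        rw [map_add, map_spa] at hbf
        have e : (s₀.re : ℂ) = -2 := by
          rw [hre, h7]
          push_cast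
          have : ((gord v a : ℕ) : ℂ) ≠ 0 := by exact_mod_cast hg.ne'
          field_simp
        rw [e]
        exact h4 hQ _ hc40 b hbf
    · apply fromα
      exact levels4 stR1 stR2 AZ.main fac hr v hV hv hv0 h hh a hg h6 h7
        (fun hyp => hbad (Or.inl hyp))
  refine ⟨hL, fun d hd hd' => ?_⟩
  have hdm : ∀ j, ∑ i, Fin.append v (we h) j i = d := by
    intro j
    refine Fin.addCases (fun j => ?_) (fun l => ?_) j
    · rw [Fin.append_left]
      exact hd j
    · rw [Fin.append_right]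
      exact hd' _ (h.support.equivFin.symm l).2
  have h9 := allk (by omega) (Fin.append v (we h)) (Fin.append c (wc h)) d hdm hZ
    (fun s₀ => ∀ b : Polynomial ℂ,
      IsLocalBFunction (MvPolynomial.map (algebraMap ℚ ℂ) (spa v c + h)) b →
          b.eval (s₀.re : ℂ) = 0) (by rw [hq]; exact hL)
  rw [hq] at h9
  exact h9

/-- **Generic coefficients, four variables, p-adic zeta functions.** -/
theorem pgen5 (hr : 0 < r)
    (v : Fin r → Fin 4 → ℕ) (hV : Vert v) (hv : Function.Injective v) (hv0 : ∀ j, v j ≠ 0)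
    (h : MvPolynomial (Fin 4) ℚ) (hh : ∀ w ∈ h.support, NP v w) :
    ∃ g : MvPolynomial (Fin r) ℚ, g ≠ 0 ∧ ∀ c : Fin r → ℚ, eval c g ≠ 0 →
      ConL5 v h c ∧ ConG5 v h c := by
  obtain ⟨g, hg, hgc⟩ := pgen50 hr v hV hv hv0 (hz v h)
    (fun w hw => hh w ((hz_support v hv h).1 w hw)) (hz_support v hv h).2
  refine ⟨shf (cof v h) g, shf_ne _ _ hg, fun c hc => ?_⟩
  have hc' : eval (fun j => c j + cof v h j) g ≠ 0 := by
    intro h2
    apply hc
    have h3 := shf_eval (K := ℚ) (cof v h) g c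
    rw [← coe_aeval_eq_eval] at h2 ⊢
    rw [← h2]
    exact h3
  have heq := hz_eq v h c
  obtain ⟨h1, h2⟩ := hgc _ hc'
  constructor
  · unfold ConL5 at h1 ⊢
    rw [heq]
    exact h1
  · intro d hd hd'
    have h3 := h2 d hd (fun w hw => hd' w ((hz_support v hv h).1 w hw))
    rw [heq]
    exact h3

end Pool.Agent.Y228.PL
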