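import Mathlib

set_option autoImplicit false

namespace Pool.Agent.Y228.PL

open Finset

variable {F : Type} [Field F] [Fintype F] [DecidableEq F] {n k : ℕ}

/-- the points with nonzero coordinates -/
def Tor (F : Type) [Field F] [Fintype F] [DecidableEq F] (n : ℕ) : Finset (Fin n → F) :=
  univ.filter fun z => ∀ x, z x ≠ 0

/-- the nonzero elements -/
def Fs (F : Type) [Field F] [Fintype F] [DecidableEq F] : Finset F := univ.filter fun x => x ≠ 0

lemma mem_Tor {z : Fin n → F} : z ∈ Tor F n ↔ ∀ x, z x ≠ 0 := by simp [Tor]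

lemma mem_Fs {x : F} : x ∈ Fs F ↔ x ≠ 0 := by simp [Fs]

lemma card_Fs : ((Fs F).card : ℤ) = (Fintype.card F : ℤ) - 1 := by
  have h : Fs F = univ.erase 0 := by
    ext x
    simp [Fs]
  rw [h, card_erase_of_mem (mem_univ _), card_univ, Nat.cast_sub (Fintype.card_pos)]
  simp

/-- averaging in one coordinate -/
lemma avg (g : (Fin n → F) → ℤ) (i : Fin n) :
    ∑ z ∈ Tor F n, ∑ x ∈ Fs F, g (Function.update z i x) = (Fs F).card * ∑ z ∈ Tor F n, g z := by
  have h1 : (((Fs F).card : ℤ) * ∑ z ∈ Tor F n, g z) = ∑ z ∈ Tor F n, ∑ _x ∈ Fs F, g z := by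
    rw [mul_sum]
    refine sum_congr rfl fun z _ => ?_
    rw [sum_const, nsmul_eq_mul]
  rw [h1, ← sum_product', ← sum_product']
  refine sum_nbij' (fun p => (Function.update p.1 i p.2, p.1 i))
    (fun p => (Function.update p.1 i p.2, p.1 i)) ?_ ?_ ?_ ?_ ?_
  · rintro ⟨z, x⟩ h
    rw [mem_product, mem_Tor, mem_Fs] at h
    rw [mem_product, mem_Tor, mem_Fs]
    refine ⟨fun y => ?_, h.1 i⟩
    by_cases hy : y = i
    · subst hy
      simpa using h.2
    · simpa [Function.update_of_ne hy] using h.1 y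
  · rintro ⟨z, x⟩ h
    rw [mem_product, mem_Tor, mem_Fs] at h
    rw [mem_product, mem_Tor, mem_Fs]
    refine ⟨fun y => ?_, h.1 i⟩
    by_cases hy : y = i
    · subst hy
      simpa using h.2
    · simpa [Function.update_of_ne hy] using h.1 y
  · rintro ⟨z, x⟩ _
    simp
  · rintro ⟨z, x⟩ _
    simp
  · rintro ⟨z, x⟩ _
    rfl

/-- averaging in two coordinates -/
lemma avg2 (g : (Fin n → F) → ℤ) (i l : Fin n) :
    ∑ z ∈ Tor F n, ∑ x ∈ Fs F, ∑ y ∈ Fs F, g (Function.update (Function.update z i x) l y) =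
      (Fs F).card ^ 2 * ∑ z ∈ Tor F n, g z := by
  have h1 := avg (fun z => ∑ y ∈ Fs F, g (Function.update z l y)) i
  rw [h1, avg g l]
  ring

/-- the number of the solutions -/
def nn (a b c : F) : ℤ := ∑ x ∈ Fs F, ∑ y ∈ Fs F, if a + x * b + y * c = 0 then 1 else 0

lemma split_Fs (g : F → ℤ) : ∑ x, g x = g 0 + ∑ x ∈ Fs F, g x := by
  have h : Fs F = univ.erase 0 := by
    ext x
    simp [Fs]
  rw [h, add_sum_erase _ _ (mem_univ _)]

lemma line (a b c : F) (h : b ≠ 0 ∨ c ≠ 0) :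
    ∑ x : F, ∑ y : F, (if a + x * b + y * c = 0 then (1 : ℤ) else 0) = Fintype.card F := by
  have key : ∀ a b : F, b ≠ 0 → ∑ x : F, (if a + x * b = 0 then (1 : ℤ) else 0) = 1 := by
    intro a b hb
    rw [sum_eq_single (-a / b)]
    · rw [if_pos]
      field_simp
      ring
    · intro x _ hx
      rw [if_neg]
      intro h
      apply hx
      rw [eq_div_iff hb]
      linear_combination h
    · intro h
      exact absurd (mem_univ _) h
  rcases h with h | h
  · rw [sum_comm]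
    have : ∀ y : F, ∑ x : F, (if a + x * b + y * c = 0 then (1 : ℤ) else 0) = 1 := by
      intro y
      refine Eq.trans ?_ (key (a + y * c) b h)
      refine sum_congr rfl fun x _ => ?_
      rw [show a + x * b + y * c = a + y * c + x * b by ring]
    simp [this]
  · have : ∀ x : F, ∑ y : F, (if a + x * b + y * c = 0 then (1 : ℤ) else 0) = 1 := by
      intro x
      exact key (a + x * b) c h
    simp [this]

/-- the identity for the fibres -/
lemma fibre (a b c : F) (h : b ≠ 0 ∨ c ≠ 0) :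
    nn a 0 0 + (Fs F).card * nn a b 0 + (Fs F).card * nn a 0 c + (Fs F).card ^ 2 * nn a b c =
      (Fs F).card ^ 2 * Fintype.card F := by
  have h1 := line a b c h
  rw [split_Fs] at h1
  simp only [split_Fs (fun y => if a + _ * b + y * c = 0 then (1 : ℤ) else 0)] at h1
  rw [sum_add_distrib] at h1
  have e0 : nn a 0 0 = (Fs F).card ^ 2 * (if a + 0 * b + 0 * c = 0 then (1 : ℤ) else 0) := by
    unfold nn
    simp only [mul_zero, add_zero, zero_mul, sum_const, nsmul_eq_mul]
    ring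
  have e1 : nn a b 0 = (Fs F).card * ∑ x ∈ Fs F, (if a + x * b + 0 * c = 0 then (1 : ℤ) else 0) := by
    unfold nn
    simp only [mul_zero, add_zero, zero_mul, sum_const, nsmul_eq_mul]
    rw [mul_sum]
  have e2 : nn a 0 c = (Fs F).card * ∑ y ∈ Fs F, (if a + 0 * b + y * c = 0 then (1 : ℤ) else 0) := by
    unfold nn
    simp only [mul_zero, add_zero, zero_mul, sum_const, nsmul_eq_mul]
  rw [e0, e1, e2, ← h1]
  unfold nn
  ring

/-- **The relation for polynomials which are linear in two variables.** -/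
theorem cnt2 (m : Fin k → Fin n → ℕ) (b : Fin k → F) (i l : Fin n) (hil : i ≠ l)
    (τ0 τ1 τ2 : Finset (Fin k)) (h0 : ∀ j ∈ τ0, m j i = 0 ∧ m j l = 0)
    (h1 : ∀ j ∈ τ1, m j i = 1 ∧ m j l = 0) (h2 : ∀ j ∈ τ2, m j i = 0 ∧ m j l = 1)
    (hne : ∀ z : Fin n → F, (∀ x, z x ≠ 0) →
      ∑ j ∈ τ1, b j * ∏ x, z x ^ m j x ≠ 0 ∨ ∑ j ∈ τ2, b j * ∏ x, z x ^ m j x ≠ 0)
    (N : Finset (Fin k) → ℤ)
    (hN : ∀ τ, N τ = ∑ z ∈ Tor F n, if ∑ j ∈ τ, b j * ∏ x, z x ^ m j x = 0 then 1 else 0) :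
    N τ0 + (Fs F).card * N (τ0 ∪ τ1) + (Fs F).card * N (τ0 ∪ τ2) +
      (Fs F).card ^ 2 * N (τ0 ∪ (τ1 ∪ τ2)) = Fintype.card F * (Tor F n).card := by
  classical
  have hp : ∀ (z : Fin n → F) (x y : F) (j : Fin k),
      ∏ w, (Function.update (Function.update z i x) l y) w ^ m j w =
        x ^ m j i * y ^ m j l * ∏ w ∈ (univ.erase l).erase i, z w ^ m j w := by
    intro z x y j
    rw [← mul_prod_erase univ _ (mem_univ l), ← mul_prod_erase (univ.erase l) _
      (mem_erase.2 ⟨hil, mem_univ i⟩), Function.update_self, Function.update_of_ne hil,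
      Function.update_self]
    have e : ∏ w ∈ (univ.erase l).erase i,
        (Function.update (Function.update z i x) l y) w ^ m j w =
        ∏ w ∈ (univ.erase l).erase i, z w ^ m j w := by
      refine prod_congr rfl fun w hw => ?_
      rw [mem_erase, mem_erase] at hw
      rw [Function.update_of_ne hw.2.1, Function.update_of_ne hw.1]
    rw [e]
    ring
  set A : Finset (Fin k) → (Fin n → F) → F := fun τ z =>
    ∑ j ∈ τ, b j * ∏ w ∈ (univ.erase l).erase i, z w ^ m j w with hA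
  have s0 : ∀ (z : Fin n → F) (x y : F), ∑ j ∈ τ0, b j *
      ∏ w, (Function.update (Function.update z i x) l y) w ^ m j w = A τ0 z := by
    intro z x y
    rw [hA]
    refine sum_congr rfl fun j hj => ?_
    rw [hp, (h0 j hj).1, (h0 j hj).2]
    ring
  have s1 : ∀ (z : Fin n → F) (x y : F), ∑ j ∈ τ1, b j *
      ∏ w, (Function.update (Function.update z i x) l y) w ^ m j w = x * A τ1 z := by
    intro z x y
    rw [hA, mul_sum]
    refine sum_congr rfl fun j hj => ?_
    rw [hp, (h1 j hj).1, (h1 j hj).2]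
    ring
  have s2 : ∀ (z : Fin n → F) (x y : F), ∑ j ∈ τ2, b j *
      ∏ w, (Function.update (Function.update z i x) l y) w ^ m j w = y * A τ2 z := by
    intro z x y
    rw [hA, mul_sum]
    refine sum_congr rfl fun j hj => ?_
    rw [hp, (h2 j hj).1, (h2 j hj).2]
    ring
  have d01 : Disjoint τ0 τ1 := by
    rw [disjoint_left]
    intro j hj hj'
    have := (h0 j hj).1
    have := (h1 j hj').1
    omega
  have d02 : Disjoint τ0 τ2 := by
    rw [disjoint_left]
    intro j hj hj'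
    have := (h0 j hj).2
    have := (h2 j hj').2
    omega
  have d12 : Disjoint τ1 τ2 := by
    rw [disjoint_left]
    intro j hj hj'
    have := (h1 j hj).1
    have := (h2 j hj').1
    omega
  have key : ∀ τ, (Fs F).card ^ 2 * N τ = ∑ z ∈ Tor F n, ∑ x ∈ Fs F, ∑ y ∈ Fs F,
      if ∑ j ∈ τ, b j * ∏ w, (Function.update (Function.update z i x) l y) w ^ m j w = 0 then
        (1 : ℤ) else 0 := by
    intro τ
    rw [hN, ← avg2 (fun z => if ∑ j ∈ τ, b j * ∏ w, z w ^ m j w = 0 then (1 : ℤ) else 0) i l]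
  have k0 : (Fs F).card ^ 2 * N τ0 = ∑ z ∈ Tor F n, nn (A τ0 z) 0 0 := by
    rw [key]
    refine sum_congr rfl fun z _ => sum_congr rfl fun x _ => sum_congr rfl fun y _ => ?_
    rw [s0, mul_zero, mul_zero, add_zero, add_zero]
  have k1 : (Fs F).card ^ 2 * N (τ0 ∪ τ1) = ∑ z ∈ Tor F n, nn (A τ0 z) (A τ1 z) 0 := by
    rw [key]
    refine sum_congr rfl fun z _ => sum_congr rfl fun x _ => sum_congr rfl fun y _ => ?_
    rw [sum_union d01, s0, s1, mul_zero, add_zero]
  have k2 : (Fs F).card ^ 2 * N (τ0 ∪ τ2) = ∑ z ∈ Tor F n, nn (A τ0 z) 0 (A τ2 z) := by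
    rw [key]
    refine sum_congr rfl fun z _ => sum_congr rfl fun x _ => sum_congr rfl fun y _ => ?_
    rw [sum_union d02, s0, s2, mul_zero, add_zero]
  have k3 : (Fs F).card ^ 2 * N (τ0 ∪ (τ1 ∪ τ2)) =
      ∑ z ∈ Tor F n, nn (A τ0 z) (A τ1 z) (A τ2 z) := by
    rw [key]
    refine sum_congr rfl fun z _ => sum_congr rfl fun x _ => sum_congr rfl fun y _ => ?_
    rw [sum_union (disjoint_union_right.2 ⟨d01, d02⟩), sum_union d12, s0, s1, s2, add_assoc]
  have hne' : ∀ z ∈ Tor F n, A τ1 z ≠ 0 ∨ A τ2 z ≠ 0 := by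
    intro z hz
    rw [mem_Tor] at hz
    rcases hne z hz with h | h
    · left
      intro h'
      apply h
      have := s1 z (z i) (z l)
      rw [h', mul_zero, Function.update_eq_self_iff.2 (by simp), Function.update_eq_self] at this
      exact this
    · right
      intro h'
      apply h
      have := s2 z (z i) (z l)
      rw [h', mul_zero, Function.update_eq_self_iff.2 (by simp), Function.update_eq_self] at this
      exact this
  have hq : ((Fs F).card : ℤ) ^ 2 ≠ 0 := by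
    apply pow_ne_zero
    have : (1 : F) ∈ Fs F := mem_Fs.2 one_ne_zero
    have : 0 < (Fs F).card := card_pos.2 ⟨_, this⟩
    omega
  apply mul_left_cancel₀ hq
  have e : ((Fs F).card : ℤ) ^ 2 * (N τ0 + (Fs F).card * N (τ0 ∪ τ1) +
      (Fs F).card * N (τ0 ∪ τ2) + (Fs F).card ^ 2 * N (τ0 ∪ (τ1 ∪ τ2))) =
      ∑ z ∈ Tor F n, (nn (A τ0 z) 0 0 + (Fs F).card * nn (A τ0 z) (A τ1 z) 0 +
        (Fs F).card * nn (A τ0 z) 0 (A τ2 z) +
          (Fs F).card ^ 2 * nn (A τ0 z) (A τ1 z) (A τ2 z)) := by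
    rw [sum_add_distrib, sum_add_distrib, sum_add_distrib, ← mul_sum, ← mul_sum, ← mul_sum,
      ← k0, ← k1, ← k2, ← k3]
    ring
  rw [e, sum_congr rfl fun z hz => fibre _ _ _ (hne' z hz), sum_const, nsmul_eq_mul]
  ring

end Pool.Agent.Y228.PL
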