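import Pool.Agent.Y228.PL.Reg

/-!
# Homogeneous polynomials: the local and the global p-adic zeta function
-/

set_option autoImplicit false

namespace Pool.Agent.Y228.PL

open MeasureTheory Filter Topology
open Pool.Agent.W426.SM (gord ford)
open Pool.Agent.W803.SM (filt)
open Pool.Agent.W425.PN (ford_eq qpoly spoly_eq)
open Pool.Agent.W422.LP (PD Wk)
open Pool.Agent.W880.SM Pool.Agent.W426.SM

variable {r : ℕ}

lemma gord_shift (hr : 0 < r) (v : Fin r → Fin 4 → ℕ) (d : ℕ) (hd : ∀ j, ∑ i, v j i = d)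
    (u : Fin 4 → ℕ) : gord v (fun i => u i + 1) = gord v u + d := by
  have h1 : ∀ j, ∑ i, (u i + 1) * v j i = ∑ i, u i * v j i + d := by
    intro j
    rw [← hd j, ← Finset.sum_add_distrib]
    refine Finset.sum_congr rfl fun i _ => ?_
    ring
  obtain ⟨j0, hj0⟩ := Pool.Agent.W803.SM.exists_gord hr v u
  obtain ⟨j1, hj1⟩ := Pool.Agent.W803.SM.exists_gord hr v (fun i => u i + 1)
  have h2 := Pool.Agent.W803.SM.gord_le v u j1
  have h3 := Pool.Agent.W803.SM.gord_le v (fun i => u i + 1) j0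
  rw [h1] at h3 hj1
  omega

/-- **The integrals over `(p ℤ_p) ^ 4` and over `ℤ_p ^ 4`.** -/
theorem int_scale (hr : 0 < r) (v : Fin r → Fin 4 → ℕ) (c : Fin r → ℚ) (d : ℕ)
    (hd : ∀ j, ∑ i, v j i = d) (h : ZMb 0 v c 1) :
    ∃ S : Finset ℕ, ∀ (p : ℕ) [Fact p.Prime], p ∉ S →
      ∀ [MeasurableSpace (Fin 4 → PadicInt p)] [BorelSpace (Fin 4 → PadicInt p)],
      ∀ s : ℂ, 0 < s.re →
        ∫ x in {x : Fin 4 → PadicInt p | ∀ i, ‖x i‖ ≤ (p : ℝ) ^ (-(1 : ℤ))},
            ((‖MvPolynomial.eval₂ (algebraMap ℚ (Padic p))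
              (fun i => ((x i : PadicInt p) : Padic p)) (qpoly v c)‖ : ℝ) : ℂ) ^ s
            ∂(Measure.addHaar : Measure (Fin 4 → PadicInt p)) =
        (p : ℂ) ^ (-((4 : ℂ) + s * d)) *
          ∫ x, ((‖MvPolynomial.eval₂ (algebraMap ℚ (Padic p))
              (fun i => ((x i : PadicInt p) : Padic p)) (qpoly v c)‖ : ℝ) : ℂ) ^ s
            ∂(Measure.addHaar : Measure (Fin 4 → PadicInt p)) := by
  classical
  obtain ⟨S, hS⟩ := h
  refine ⟨S, fun p hpf hpS _ _ s hs => ?_⟩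
  obtain ⟨V, C₀, C₁, hV, hCR, hint⟩ := hS p hpS
  have hp0 : (p : ℂ) ≠ 0 := by exact_mod_cast hpf.out.ne_zero
  have h1 := hint (fun _ => 1) s hs
  have h0 := hint (fun _ => 0) s hs
  have e1 : ∫ x in {x : Fin 4 → PadicInt p | ∀ i, ‖x i‖ ≤ (p : ℝ) ^ (-(1 : ℤ))},
                  ((‖MvPolynomial.eval₂ (algebraMap ℚ (Padic p))
                    (fun i => ((x i : PadicInt p) : Padic p)) (qpoly v c)‖ : ℝ) : ℂ) ^ s
                  ∂(MeasureTheory.Measure.addHaar : MeasureTheory.Measure (Fin 4 → PadicInt p)) =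
          ∫ x in PD p (fun _ => 1), ((pval p (spoly 0 v c 1) x : ℝ) : ℂ) ^ s
              ∂(Measure.addHaar : Measure (Fin 4 → PadicInt p)) := by
    rw [spoly_eq]
    rfl
  have hPD0 : PD p (fun _ : Fin 4 => 0) = Set.univ := by
    ext x
    simp only [PD, Set.mem_ofPred_eq, Set.mem_univ, iff_true]
    intro i
    have := PadicInt.norm_le_one (x i)
    simpa using this
  have e0 : ∫ x, ((‖MvPolynomial.eval₂ (algebraMap ℚ (Padic p))
                    (fun i => ((x i : PadicInt p) : Padic p)) (qpoly v c)‖ : ℝ) : ℂ) ^ s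
                  ∂(MeasureTheory.Measure.addHaar : MeasureTheory.Measure (Fin 4 → PadicInt p)) =
          ∫ x in PD p (fun _ => 0), ((pval p (spoly 0 v c 1) x : ℝ) : ℂ) ^ s
              ∂(Measure.addHaar : Measure (Fin 4 → PadicInt p)) := by
    rw [hPD0, setIntegral_univ, spoly_eq]
    rfl
  rw [e1, e0, h1, h0]
  set G : (Fin 4 → ℕ) → ℂ := fun u =>
    (C₀ (Finset.univ.filter fun j => ∑ i, u i * v j i = gord v u) : ℂ) +
      (C₁ (Finset.univ.filter fun j => ∑ i, u i * v j i = gord v u) : ℂ) *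
        ((p : ℂ) ^ (-(((1 : ℕ) : ℂ) * s)) / (1 - (p : ℂ) ^ (-(1 + ((1 : ℕ) : ℂ) * s)))) with hG
  have hg : Function.Injective fun u : Fin 4 → ℕ => fun i => u i + 1 := by
    intro u u' h
    funext i
    have := congrFun h i
    simpa using this
  have hsupp : Function.support (fun u => Wk (fun _ => 1) p 0 v 1 s u * G u) ⊆
      Set.range fun u : Fin 4 → ℕ => fun i => u i + 1 := by
    intro u hu
    by_contra hcon
    apply hu
    have : ¬ ∀ i, (fun _ : Fin 4 => 1) i ≤ u i := by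
      intro h
      apply hcon
      refine ⟨fun i => u i - 1, ?_⟩
      funext i
      exact Nat.sub_add_cancel (h i)
    show Wk (fun _ => 1) p 0 v 1 s u * G u = 0
    unfold Pool.Agent.W422.LP.Wk
    rw [if_neg this, zero_mul]
  have e2 : ∑' u : Fin 4 → ℕ, Wk (fun _ => 1) p 0 v 1 s u * G u =
      ∑' u : Fin 4 → ℕ, Wk (fun _ => 1) p 0 v 1 s (fun i => u i + 1) * G (fun i => u i + 1) :=
    (hg.tsum_eq hsupp).symm
  have e3 : ∀ u : Fin 4 → ℕ, Wk (fun _ => 1) p 0 v 1 s (fun i => u i + 1) *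
      G (fun i => u i + 1) = (p : ℂ) ^ (-((4 : ℂ) + s * d)) *
        (Wk (fun _ => 0) p 0 v 1 s u * G u) := by
    intro u
    have hgs := gord_shift hr v d hd u
    have hset : (Finset.univ.filter fun j => ∑ i, (u i + 1) * v j i =
        gord v (fun i => u i + 1)) = Finset.univ.filter fun j => ∑ i, u i * v j i = gord v u := by
      ext j
      rw [Finset.mem_filter, Finset.mem_filter, hgs]
      refine and_congr_right fun _ => ?_
      have : ∑ i, (u i + 1) * v j i = ∑ i, u i * v j i + d := by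
        rw [← hd j, ← Finset.sum_add_distrib]
        refine Finset.sum_congr rfl fun i _ => ?_
        ring
      rw [this]
      omega
    have hGG : G (fun i => u i + 1) = G u := by
      rw [hG]
      simp only
      rw [hset]
    rw [hGG, ← mul_assoc]
    congr 1
    unfold Pool.Agent.W422.LP.Wk
    rw [if_pos (fun i => Nat.le_add_left _ _), if_pos (fun i => Nat.zero_le _)]
    show (p : ℂ) ^ (-(((∑ i, (u i + 1) : ℕ) : ℂ) + s * ford 0 v 1 (fun i => u i + 1))) =
      (p : ℂ) ^ (-((4 : ℂ) + s * d)) * (p : ℂ) ^ (-(((∑ i, u i : ℕ) : ℂ) + s * ford 0 v 1 u))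
    rw [← Complex.cpow_add _ _ hp0, ford_eq, ford_eq, hgs]
    congr 1
    rw [Finset.sum_add_distrib]
    push_cast
    simp
    ring
  show (V : ℂ) * ∑' u, Wk (fun _ => 1) p 0 v 1 s u * G u =
    (p : ℂ) ^ (-((4 : ℂ) + s * d)) * ((V : ℂ) * ∑' u, Wk (fun _ => 0) p 0 v 1 s u * G u)
  rw [e2, tsum_congr e3, tsum_mul_left]
  ring

/-- poles of the global zeta function -/
theorem pole_loc (p : ℕ) (hp : 2 ≤ p) (d : ℕ) (F : ℂ → ℂ) (hF : MeromorphicOn F Set.univ)
    (s₀ : ℂ) :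
    MeromorphicOn (fun s => (p : ℂ) ^ (-((4 : ℂ) + s * d)) * F s) Set.univ ∧
    meromorphicOrderAt (fun s => (p : ℂ) ^ (-((4 : ℂ) + s * d)) * F s) s₀ =
      meromorphicOrderAt F s₀ := by
  have hp0 : (p : ℂ) ≠ 0 := by exact_mod_cast (by omega : p ≠ 0)
  have hD : Differentiable ℂ fun s : ℂ => (p : ℂ) ^ (-((4 : ℂ) + s * d)) :=
    Pool.Agent.W803.SM.diff_pow hp (by fun_prop)
  refine ⟨fun s _ => ((hD.analyticAt s).meromorphicAt).mul (hF s trivial), ?_⟩
  refine meromorphicOrderAt_mul_of_ne_zero (hD.analyticAt s₀) ?_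
  rw [Ne, Complex.cpow_eq_zero_iff]
  tauto

end Pool.Agent.Y228.PL
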