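import Pool.Agent.W425.BF.Zma
import Pool.Agent.Y231.N4.X1
import Pool.Agent.Y228.PL.Cnt

/-!
# No common zeros, modulo almost all primes
-/

set_option autoImplicit false

namespace Pool.Agent.Y228.PL

open MvPolynomial MeasureTheory
open Pool.Agent.W426.SM (gord face)
open Pool.Agent.W424.SM.ZMU Pool.Agent.W22.SM.ZMA
open Pool.Agent.W425.PN (eval_le_one coe_GG)
open Pool.Agent.W425.BF (toZMod_GG)
open Pool.Agent.W425.MM (NonD)

variable {n k : ℕ}

/-- the part of the polynomial -/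
noncomputable def pt {F : Type} [Field F] (m : Fin k → Fin n → ℕ) (c : Fin k → F)
    (τ : Finset (Fin k)) : MvPolynomial (Fin n) F :=
  ∑ j ∈ τ, C (c j) * ∏ i, X i ^ m j i

/-- the identity of the Nullstellensatz for two parts -/
def Idn2 {F : Type} [Field F] (m : Fin k → Fin n → ℕ) (c : Fin k → F)
    (τ1 τ2 : Finset (Fin k)) : Prop :=
  ∃ (M : ℕ) (B1 B2 : MvPolynomial (Fin n) F),
    (∏ i, X i : MvPolynomial (Fin n) F) ^ M = B1 * pt m c τ1 + B2 * pt m c τ2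

theorem idn2_of {F : Type} [Field F] [Algebra F ℂ] (m : Fin k → Fin n → ℕ)
    (c : Fin k → F) (τ1 τ2 : Finset (Fin k))
    (h : ∀ z : Fin n → ℂ, (∀ i, z i ≠ 0) →
      ∑ j ∈ τ1, algebraMap F ℂ (c j) * ∏ i, z i ^ m j i ≠ 0 ∨
      ∑ j ∈ τ2, algebraMap F ℂ (c j) * ∏ i, z i ^ m j i ≠ 0) :
    Idn2 m c τ1 τ2 := by
  classical
  set I : Ideal (MvPolynomial (Fin n) F) := Ideal.span {pt m c τ1, pt m c τ2} with hI
  have hev : ∀ (z : Fin n → ℂ) τ, aeval z (pt m c τ) =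
      ∑ j ∈ τ, algebraMap F ℂ (c j) * ∏ i, z i ^ m j i := by
    intro z τ
    unfold pt
    rw [map_sum]
    refine Finset.sum_congr rfl fun j _ => ?_
    simp
  have hmem : (∏ i, X i : MvPolynomial (Fin n) F) ∈ I.radical := by
    rw [← vanishingIdeal_zeroLocus_eq_radical (K := ℂ), mem_vanishingIdeal_iff]
    intro z hz
    rw [mem_zeroLocus_iff] at hz
    rw [map_prod]
    by_contra hne
    simp only [aeval_X] at hne
    have hz0 : ∀ i, z i ≠ 0 := fun i hi => hne (Finset.prod_eq_zero (Finset.mem_univ i) hi)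
    have h1 : aeval z (pt m c τ1) = 0 := hz _ (Ideal.subset_span (Set.mem_insert _ _))
    have h2 : aeval z (pt m c τ2) = 0 :=
      hz _ (Ideal.subset_span (Set.mem_insert_of_mem _ (Set.mem_singleton _)))
    rw [hev] at h1 h2
    rcases h z hz0 with h3 | h3
    · exact h3 h1
    · exact h3 h2
  obtain ⟨M, hM⟩ := hmem
  rw [hI, Ideal.mem_span_pair] at hM
  obtain ⟨B1, B2, hM⟩ := hM
  exact ⟨M, B1, B2, hM.symm⟩

lemma ev_pt {p : ℕ} [hp : Fact p.Prime] (m : Fin k → Fin n → ℕ) (c : Fin k → ℚ)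
    (τ : Finset (Fin k)) (b : Fin k → ℤ_[p])
    (hb : ∀ j, (b j : ℚ_[p]) = if j ∈ τ then (c j : ℚ_[p]) else 0) (y : Fin n → ℤ_[p]) :
    MvPolynomial.eval₂ (algebraMap ℚ ℚ_[p]) (fun i => ((y i : ℤ_[p]) : ℚ_[p])) (pt m c τ) =
      ((GG m b y : ℤ_[p]) : ℚ_[p]) := by
  classical
  unfold pt
  rw [coe_GG, MvPolynomial.eval₂_sum, ← Finset.sum_filter_add_sum_filter_not Finset.univ
    (fun j => j ∈ τ)]
  rw [Finset.sum_eq_zero (s := Finset.univ.filter fun j => j ∉ τ) (fun j hj => by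
    rw [hb j, if_neg (Finset.mem_filter.1 hj).2, zero_mul]), add_zero]
  refine Finset.sum_congr (by ext j; simp) fun j hj => ?_
  have hj' : j ∈ τ := by simpa using hj
  rw [hb j, if_pos hj']
  simp [MvPolynomial.eval₂_mul, MvPolynomial.eval₂_prod, MvPolynomial.eval₂_pow]

/-- no common zeros modulo `p` -/
theorem nc_mod {p : ℕ} [hp : Fact p.Prime] (m : Fin k → Fin n → ℕ) (c : Fin k → ℚ)
    (τ1 τ2 : Finset (Fin k)) (M : ℕ) (B1 B2 : MvPolynomial (Fin n) ℚ)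
    (hid : (∏ i, X i : MvPolynomial (Fin n) ℚ) ^ M = B1 * pt m c τ1 + B2 * pt m c τ2)
    (hB1 : ∀ w ∈ B1.support, ‖((B1.coeff w : ℚ) : ℚ_[p])‖ ≤ 1)
    (hB2 : ∀ w ∈ B2.support, ‖((B2.coeff w : ℚ) : ℚ_[p])‖ ≤ 1)
    (cz : Fin k → ℤ_[p]) (hcz : ∀ j, (cz j : ℚ_[p]) = (c j : ℚ_[p]))
    (z : Fin n → ZMod p) (hz : ∀ i, z i ≠ 0) :
    ∑ j ∈ τ1, PadicInt.toZMod (cz j) * ∏ x, z x ^ m j x ≠ 0 ∨
      ∑ j ∈ τ2, PadicInt.toZMod (cz j) * ∏ x, z x ^ m j x ≠ 0 := by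
  classical
  have hsurj : ∀ a : ZMod p, ∃ y : ℤ_[p], PadicInt.toZMod y = a :=
    fun a => ZMod.ringHom_surjective _ a
  choose y hy using fun i => hsurj (z i)
  have hz' : z = fun i => PadicInt.toZMod (y i) := funext fun i => (hy i).symm
  have hyn : ∀ i, ‖y i‖ = 1 := fun i => toZMod_ne_zero.1 (by rw [hy]; exact hz i)
  have hG : ∀ τ : Finset (Fin k), ∑ j ∈ τ, PadicInt.toZMod (cz j) * ∏ x, z x ^ m j x =
      PadicInt.toZMod (GG m (fun j => if j ∈ τ then cz j else 0) y) := by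
    intro τ
    rw [toZMod_GG, hz']
  rw [hG, hG]
  by_contra hcon
  push Not at hcon
  obtain ⟨h1, h2⟩ := hcon
  rw [toZMod_eq_zero] at h1 h2
  have hev : ∀ τ : Finset (Fin k), MvPolynomial.eval₂ (algebraMap ℚ ℚ_[p])
      (fun i => ((y i : ℤ_[p]) : ℚ_[p])) (pt m c τ) =
      ((GG m (fun j => if j ∈ τ then cz j else 0) y : ℤ_[p]) : ℚ_[p]) := by
    intro τ
    refine ev_pt m c τ _ (fun j => ?_) y
    split_ifs with h
    · exact hcz j
    · rfl
  have h3 := congrArg (MvPolynomial.eval₂ (algebraMap ℚ ℚ_[p])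
    (fun i => ((y i : ℤ_[p]) : ℚ_[p]))) hid
  have h4 : ‖MvPolynomial.eval₂ (algebraMap ℚ ℚ_[p]) (fun i => ((y i : ℤ_[p]) : ℚ_[p]))
      ((∏ i, MvPolynomial.X i : MvPolynomial (Fin n) ℚ) ^ M)‖ = 1 := by
    rw [MvPolynomial.eval₂_pow, MvPolynomial.eval₂_prod, norm_pow, norm_prod]
    rw [Finset.prod_eq_one (fun i _ => by
      rw [MvPolynomial.eval₂_X, ← PadicInt.norm_def, hyn i]), one_pow]
  rw [h3, MvPolynomial.eval₂_add, MvPolynomial.eval₂_mul, MvPolynomial.eval₂_mul, hev, hev] at h4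
  have h5 : ∀ (B : MvPolynomial (Fin n) ℚ) (g : ℤ_[p]),
      (∀ w ∈ B.support, ‖((B.coeff w : ℚ) : ℚ_[p])‖ ≤ 1) → ‖g‖ < 1 →
      ‖MvPolynomial.eval₂ (algebraMap ℚ ℚ_[p]) (fun i => ((y i : ℤ_[p]) : ℚ_[p])) B *
      (g : ℚ_[p])‖ < 1 := by
    intro B g hB hg
    rw [norm_mul]
    exact mul_lt_one_of_nonneg_of_lt_one_right (eval_le_one B hB y) (norm_nonneg _)
      (by rw [← PadicInt.norm_def]; exact hg)
  have h6 := IsUltrametricDist.norm_add_le_max
    (MvPolynomial.eval₂ (algebraMap ℚ ℚ_[p]) (fun i => ((y i : ℤ_[p]) : ℚ_[p])) B1 *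
      ((GG m (fun j => if j ∈ τ1 then cz j else 0) y : ℤ_[p]) : ℚ_[p]))
    (MvPolynomial.eval₂ (algebraMap ℚ ℚ_[p]) (fun i => ((y i : ℤ_[p]) : ℚ_[p])) B2 *
      ((GG m (fun j => if j ∈ τ2 then cz j else 0) y : ℤ_[p]) : ℚ_[p]))
  rw [h4] at h6
  exact absurd (lt_of_le_of_lt h6 (max_lt (h5 B1 _ hB1 h1) (h5 B2 _ hB2 h2))) (lt_irrefl _)

/-- for four variables: the parts of a face -/
theorem idn2_face {F : Type} [Field F] [Algebra F ℂ] (m : Fin k → Fin 4 → ℕ) (c : Fin k → F)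
    (hN : NonD m (fun j => algebraMap F ℂ (c j))) {i l : Fin 4} (hil : i ≠ l)
    (τ0 τ1 τ2 : Finset (Fin k)) (h0 : ∀ j ∈ τ0, m j i = 0 ∧ m j l = 0)
    (h1 : ∀ j ∈ τ1, m j i = 1 ∧ m j l = 0) (h2 : ∀ j ∈ τ2, m j i = 0 ∧ m j l = 1)
    (hn1 : τ1.Nonempty) (hn2 : τ2.Nonempty)
    (hx : ∃ x : Fin 4 → ℕ, (∀ i, 0 < x i) ∧ Pool.Agent.W428.MOT.amin m x = τ0 ∪ (τ1 ∪ τ2)) :
    Idn2 m c τ1 τ2 := by
  classical
  obtain ⟨x, hx, hxτ⟩ := hx
  refine idn2_of m c τ1 τ2 fun z hz => ?_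
  have hN' : ∀ (u : Fin 4 → ℕ) (z : Fin 4 → ℂ), (∀ i, z i ≠ 0) →
      Pool.Agent.W428.MOT.gbar m (fun j => algebraMap F ℂ (c j))
        (Pool.Agent.W428.MOT.amin m u) z = 0 →
      ∃ i, Pool.Agent.W428.MOT.dgbar m (fun j => algebraMap F ℂ (c j))
        (Pool.Agent.W428.MOT.amin m u) i z ≠ 0 := by
    intro u z hz h
    have hsum : ∀ g : Fin k → ℂ, ∑ j, (if face m u j then g j else 0) =
        ∑ j ∈ Pool.Agent.W428.MOT.amin m u, g j := by
      intro g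
      unfold Pool.Agent.W428.MOT.amin
      rw [Finset.sum_filter]
      refine Finset.sum_congr rfl fun j _ => ?_
      by_cases hj : ∑ i, u i * m j i = gord m u
      · rw [if_pos hj, if_pos (show face m u j from hj)]
      · rw [if_neg hj, if_neg (show ¬ face m u j from hj)]
    obtain ⟨i, hi⟩ := hN u z hz (by rw [hsum]; exact h)
    refine ⟨i, fun h' => hi ?_⟩
    rw [hsum]
    have e : ∑ j ∈ Pool.Agent.W428.MOT.amin m u, algebraMap F ℂ (c j) *
        ((m j i : ℂ) * ∏ i, z i ^ m j i) = z i * Pool.Agent.W428.MOT.dgbar m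
          (fun j => algebraMap F ℂ (c j)) (Pool.Agent.W428.MOT.amin m u) i z := by
      unfold Pool.Agent.W428.MOT.dgbar
      rw [Finset.mul_sum]
      refine Finset.sum_congr rfl fun j _ => ?_
      by_cases hj : m j i = 0
      · rw [hj]
        simp
      · rw [← Finset.mul_prod_erase Finset.univ _ (Finset.mem_univ i),
          ← Finset.mul_prod_erase Finset.univ (fun i₁ => z i₁ ^ (m j i₁ - if i₁ = i then 1 else 0))
            (Finset.mem_univ i), if_pos rfl]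
        have e1 : ∏ x ∈ Finset.univ.erase i, z x ^ (m j x - if x = i then 1 else 0) =
            ∏ x ∈ Finset.univ.erase i, z x ^ m j x := by
          refine Finset.prod_congr rfl fun x hx => ?_
          rw [if_neg (Finset.ne_of_mem_erase hx), Nat.sub_zero]
        obtain ⟨a, ha⟩ : ∃ a, m j i = a + 1 := ⟨m j i - 1, by omega⟩
        rw [e1, ha, Nat.add_sub_cancel, pow_succ]
        ring
    rw [e, h', mul_zero]
  rcases Pool.Agent.Y231.N4.no_common4 hil hN' x hx τ0 τ1 τ2 hxτ h0 h1 h2 hn1 hn2 z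
    (fun l _ _ => hz l) with h | h
  · left
    intro h'
    apply h
    have e : ∑ j ∈ τ1, algebraMap F ℂ (c j) * ∏ i, z i ^ m j i =
        z i * Pool.Agent.Y231.N4.gp m (fun j => algebraMap F ℂ (c j)) τ1 i z := by
      unfold Pool.Agent.Y231.N4.gp
      rw [Finset.mul_sum]
      refine Finset.sum_congr rfl fun j hj => ?_
      rw [← Finset.mul_prod_erase Finset.univ _ (Finset.mem_univ i), (h1 j hj).1]
      ring
    rw [e] at h'
    exact (mul_eq_zero.1 h').resolve_left (hz i)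
  · right
    intro h'
    apply h
    have e : ∑ j ∈ τ2, algebraMap F ℂ (c j) * ∏ i, z i ^ m j i =
        z l * Pool.Agent.Y231.N4.gp m (fun j => algebraMap F ℂ (c j)) τ2 l z := by
      unfold Pool.Agent.Y231.N4.gp
      rw [Finset.mul_sum]
      refine Finset.sum_congr rfl fun j hj => ?_
      rw [← Finset.mul_prod_erase Finset.univ _ (Finset.mem_univ l), (h2 j hj).2]
      ring
    rw [e] at h'
    exact (mul_eq_zero.1 h').resolve_left (hz l)

end Pool.Agent.Y228.PL
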