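import Pool.Agent.Y228.PL.CR
import Pool.Agent.TH216.G3.P1
import Pool.Agent.Y231.N4.X2

/-!
# The universal series and the numbers of points
-/

set_option autoImplicit false

namespace Pool.Agent.Y228.PL

open Pool.Agent.W426.SM (gord)
open Pool.Agent.W803.SM (filt gord_le summable_half)
open Pool.Agent.W428.MOT (amin)
open Pool.Agent.TH216.MF
open Pool.Agent.TH216.G3 (RS recJ_iff)
open Pool.Agent.Y231.N4

variable {r : ℕ}

/-- the relations for the numbers of points in `ℂ` -/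
structure ERel (p : ℕ) (v : Fin r → Fin 4 → ℕ) (E : ℂ) (U : Finset (Fin r) → ℂ) : Prop where
  emp : U ∅ = E
  val : E = ((p : ℂ) - 1) ^ 4 / (p : ℂ) ^ 4
  one : ∀ (i : Fin 4) (j0 : Fin r) (τ0 : Finset (Fin r)), v j0 i = 1 → (∀ l ∈ τ0, v l i = 0) →
      ((p : ℂ) - 1) * U (insert j0 τ0) + U τ0 = E
  two : ∀ i l : Fin 4, i ≠ l → ∀ τ0 τ1 τ2 : Finset (Fin r),
      (∀ j ∈ τ0, v j i = 0 ∧ v j l = 0) → (∀ j ∈ τ1, v j i = 1 ∧ v j l = 0) →
      (∀ j ∈ τ2, v j i = 0 ∧ v j l = 1) → τ1.Nonempty → τ2.Nonempty →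
      (∃ x : Fin 4 → ℕ, (∀ i, 0 < x i) ∧ amin v x = τ0 ∪ (τ1 ∪ τ2)) →
      U τ0 + ((p : ℂ) - 1) * U (τ0 ∪ τ1) + ((p : ℂ) - 1) * U (τ0 ∪ τ2) +
        ((p : ℂ) - 1) ^ 2 * U (τ0 ∪ (τ1 ∪ τ2)) = p * E

lemma frc_add (v : Fin r → Fin 4 → ℕ) {σ τ : Finset (Fin r)} (hστ : σ ⊆ τ)
    (S : Finset (Fin 4)) (h1 : ∀ i ∈ S, ∃ j ∈ τ, v j i ≠ 0) (h2 : ∀ i ∈ S, ∀ j ∈ σ, v j i = 0) :
    frc v Finset.univ τ + S.card ≤ frc v Finset.univ σ := by
  classical
  unfold frc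
  have hd : Disjoint (Pool.Agent.W428.MOT.free 0 v Finset.univ τ) S := by
    rw [Finset.disjoint_left]
    intro i hi hi'
    obtain ⟨j, hj, hne⟩ := h1 i hi'
    unfold Pool.Agent.W428.MOT.free at hi
    rw [Finset.mem_filter] at hi
    exact hne (hi.2.2 j hj)
  rw [← Finset.card_union_of_disjoint hd]
  apply Finset.card_le_card
  intro i hi
  unfold Pool.Agent.W428.MOT.free at hi ⊢
  rw [Finset.mem_union, Finset.mem_filter] at hi
  rw [Finset.mem_filter]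
  rcases hi with hi | hi
  · exact ⟨Finset.mem_univ _, rfl, fun j hj => hi.2.2 j (hστ hj)⟩
  · exact ⟨Finset.mem_univ _, rfl, fun j hj => h2 i hi j hj⟩

/-- the class functions on the faces -/
theorem decE (p : ℕ) (hp : 2 ≤ p) (v : Fin r → Fin 4 → ℕ) (E : ℂ) (U : Finset (Fin r) → ℂ)
    (h : ERel p v E U) : ∃ d : Finset (Fin r) → ℂ, ∀ τ, Fc v τ →
      U τ - E * (p : ℂ)⁻¹ = ∑ κ, d κ * eP p v Finset.univ (pB v κ) τ := by
  classical
  have hp0 : (p : ℂ) ≠ 0 := by exact_mod_cast (by omega : p ≠ 0)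
  have hp1 : (p : ℂ) - 1 ≠ 0 := by
    rw [sub_ne_zero]
    exact_mod_cast (by omega : p ≠ 1)
  set u : ℂˣ := Units.mk0 (p : ℂ) hp0 with hu
  have huv : (u : ℂ) = p := rfl
  have hc4 : (Finset.univ : Finset (Fin 4)).card = 4 := by simp
  have hfr : ∀ τ, frc v Finset.univ τ ≤ 4 := fun τ => by
    have := frc_le v Finset.univ τ
    rwa [hc4] at this
  set b : Finset (Fin r) → ℂ := fun τ =>
    U τ * (p : ℂ) ^ 4 / ((p : ℂ) - 1) ^ frc v Finset.univ τ with hb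
  have hUb : ∀ τ, U τ = ((p : ℂ) ^ 4)⁻¹ * (((p : ℂ) - 1) ^ frc v Finset.univ τ * b τ) := by
    intro τ
    rw [hb]
    field_simp
  have hcl : ClR u v 1 b := by
    refine ⟨fun i j0 hj0 τ hτ => ?_, fun i k hik τ0 τ1 τ2 t0 t1 t2 hn1 hn2 hx => ?_⟩
    · have h1 := h.one i j0 τ hj0 hτ
      have h2 := free_step v Finset.univ i (Finset.mem_univ i) j0 hj0 τ hτ
      have h3 := hfr τ
      rw [huv, hc4]
      obtain ⟨a, ha⟩ : ∃ a, frc v Finset.univ τ = frc v Finset.univ (insert j0 τ) + 1 + a :=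
        ⟨frc v Finset.univ τ - (frc v Finset.univ (insert j0 τ) + 1), by omega⟩
      obtain ⟨a', ha'⟩ : ∃ a', 4 = frc v Finset.univ (insert j0 τ) + 1 + a' :=
        ⟨4 - (frc v Finset.univ (insert j0 τ) + 1), by omega⟩
      rw [hUb, hUb τ, h.val, ha] at h1
      rw [ha, show frc v Finset.univ (insert j0 τ) + 1 + a - frc v Finset.univ (insert j0 τ) - 1 =
        a by omega, show 4 - frc v Finset.univ (insert j0 τ) - 1 = a' by omega, one_mul]
      have h4 : ((p : ℂ) - 1) ^ 4 = ((p : ℂ) - 1) ^ (frc v Finset.univ (insert j0 τ) + 1 + a') := by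
        rw [← ha']
      rw [h4] at h1
      have hne : ((p : ℂ) - 1) ^ (frc v Finset.univ (insert j0 τ) + 1) ≠ 0 := pow_ne_zero _ hp1
      refine mul_left_cancel₀ hne ?_
      have h5 : (p : ℂ) ^ 4 * ((p : ℂ) ^ 4)⁻¹ = 1 := mul_inv_cancel₀ (pow_ne_zero _ hp0)
      rw [div_eq_mul_inv] at h1
      have h6 : (p : ℂ) ^ 4 * _ = (p : ℂ) ^ 4 * _ := congrArg (fun z => (p : ℂ) ^ 4 * z) h1
      rw [pow_add, pow_add, pow_add ((p : ℂ) - 1) _ a'] at h6
      linear_combination h6 - (((p : ℂ) - 1) * (((p : ℂ) - 1) ^ frc v Finset.univ (insert j0 τ) *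
        b (insert j0 τ)) + ((p : ℂ) - 1) ^ frc v Finset.univ (insert j0 τ) * ((p : ℂ) - 1) ^ 1 *
          ((p : ℂ) - 1) ^ a * b τ - ((p : ℂ) - 1) ^ (frc v Finset.univ (insert j0 τ) + 1) *
            ((p : ℂ) - 1) ^ a') * h5
    · have h1 := h.two i k hik τ0 τ1 τ2 t0 t1 t2 hn1 hn2 hx
      obtain ⟨j1, hj1⟩ := hn1
      obtain ⟨j2, hj2⟩ := hn2
      have m1 : j1 ∈ τ0 ∪ (τ1 ∪ τ2) := Finset.mem_union_right _ (Finset.mem_union_left _ hj1)
      have m2 : j2 ∈ τ0 ∪ (τ1 ∪ τ2) := Finset.mem_union_right _ (Finset.mem_union_right _ hj2)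
      have q1 : v j1 i ≠ 0 := by rw [(t1 j1 hj1).1]; exact one_ne_zero
      have q2 : v j2 k ≠ 0 := by rw [(t2 j2 hj2).2]; exact one_ne_zero
      have f0 := frc_add v (σ := τ0) (τ := τ0 ∪ (τ1 ∪ τ2)) Finset.subset_union_left {i, k}
        (fun x hx => by
          rw [Finset.mem_insert, Finset.mem_singleton] at hx
          rcases hx with rfl | rfl
          · exact ⟨j1, m1, q1⟩
          · exact ⟨j2, m2, q2⟩) (fun x hx j hj => by
          rw [Finset.mem_insert, Finset.mem_singleton] at hx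
          rcases hx with rfl | rfl
          · exact (t0 j hj).1
          · exact (t0 j hj).2)
      rw [Finset.card_pair hik] at f0
      have f1 := frc_add v (σ := τ0 ∪ τ1) (τ := τ0 ∪ (τ1 ∪ τ2))
        (Finset.union_subset_union_right Finset.subset_union_left) {k}
        (fun x hx => by
          rw [Finset.mem_singleton] at hx
          subst hx
          exact ⟨j2, m2, q2⟩) (fun x hx j hj => by
          rw [Finset.mem_singleton] at hx
          subst hx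
          rcases Finset.mem_union.1 hj with hj | hj
          · exact (t0 j hj).2
          · exact (t1 j hj).2)
      rw [Finset.card_singleton] at f1
      have f2 := frc_add v (σ := τ0 ∪ τ2) (τ := τ0 ∪ (τ1 ∪ τ2))
        (Finset.union_subset_union_right Finset.subset_union_right) {i}
        (fun x hx => by
          rw [Finset.mem_singleton] at hx
          subst hx
          exact ⟨j1, m1, q1⟩) (fun x hx j hj => by
          rw [Finset.mem_singleton] at hx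
          subst hx
          rcases Finset.mem_union.1 hj with hj | hj
          · exact (t0 j hj).1
          · exact (t2 j hj).1)
      rw [Finset.card_singleton] at f2
      have g0 := hfr τ0
      rw [huv, hc4]
      set f := frc v Finset.univ (τ0 ∪ (τ1 ∪ τ2)) with hf
      obtain ⟨a0, ha0⟩ : ∃ a, frc v Finset.univ τ0 = f + 2 + a :=
        ⟨frc v Finset.univ τ0 - (f + 2), by omega⟩
      obtain ⟨a1, ha1⟩ : ∃ a, frc v Finset.univ (τ0 ∪ τ1) = f + 1 + a :=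
        ⟨frc v Finset.univ (τ0 ∪ τ1) - (f + 1), by omega⟩
      obtain ⟨a2, ha2⟩ : ∃ a, frc v Finset.univ (τ0 ∪ τ2) = f + 1 + a :=
        ⟨frc v Finset.univ (τ0 ∪ τ2) - (f + 1), by omega⟩
      obtain ⟨a, ha⟩ : ∃ a, 4 = f + 2 + a := ⟨4 - (f + 2), by omega⟩
      rw [hUb τ0, hUb (τ0 ∪ τ1), hUb (τ0 ∪ τ2), hUb (τ0 ∪ (τ1 ∪ τ2)), h.val, ← hf, ha0, ha1,
        ha2] at h1
      rw [ha0, ha1, ha2, show f + 2 + a0 - (f + 2) = a0 by omega,
        show f + 1 + a1 - (f + 1) = a1 by omega, show f + 1 + a2 - (f + 1) = a2 by omega,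
        show 4 - (f + 2) = a by omega, one_mul]
      have h4 : ((p : ℂ) - 1) ^ 4 = ((p : ℂ) - 1) ^ (f + 2 + a) := by rw [← ha]
      rw [h4] at h1
      have hne : ((p : ℂ) - 1) ^ (f + 2) ≠ 0 := pow_ne_zero _ hp1
      refine mul_left_cancel₀ hne ?_
      have h5 : (p : ℂ) ^ 4 * ((p : ℂ) ^ 4)⁻¹ = 1 := mul_inv_cancel₀ (pow_ne_zero _ hp0)
      rw [div_eq_mul_inv] at h1
      have h6 : (p : ℂ) ^ 4 * _ = (p : ℂ) ^ 4 * _ := congrArg (fun z => (p : ℂ) ^ 4 * z) h1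
      have e1 : ((p : ℂ) - 1) * ((p : ℂ) - 1) ^ (f + 1 + a1) =
          ((p : ℂ) - 1) ^ (f + 2) * ((p : ℂ) - 1) ^ a1 := by
        rw [← pow_succ', ← pow_add]
        congr 1
        omega
      have e2 : ((p : ℂ) - 1) * ((p : ℂ) - 1) ^ (f + 1 + a2) =
          ((p : ℂ) - 1) ^ (f + 2) * ((p : ℂ) - 1) ^ a2 := by
        rw [← pow_succ', ← pow_add]
        congr 1
        omega
      have e3 : ((p : ℂ) - 1) ^ 2 * ((p : ℂ) - 1) ^ f = ((p : ℂ) - 1) ^ (f + 2) := by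
        rw [← pow_add]
        congr 1
        omega
      have e4 : ((p : ℂ) - 1) ^ (f + 2 + a0) = ((p : ℂ) - 1) ^ (f + 2) * ((p : ℂ) - 1) ^ a0 :=
        pow_add _ _ _
      have e5 : ((p : ℂ) - 1) ^ (f + 2 + a) = ((p : ℂ) - 1) ^ (f + 2) * ((p : ℂ) - 1) ^ a :=
        pow_add _ _ _
      rw [e4, e5] at h6
      set Y := ((p : ℂ) ^ 4)⁻¹
      have h7 : ((p : ℂ) ^ 4 * Y) * (((p : ℂ) - 1) ^ (f + 2) * ((p : ℂ) - 1) ^ a0 * b τ0 +
          (((p : ℂ) - 1) * ((p : ℂ) - 1) ^ (f + 1 + a1)) * b (τ0 ∪ τ1) +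
          (((p : ℂ) - 1) * ((p : ℂ) - 1) ^ (f + 1 + a2)) * b (τ0 ∪ τ2) +
          (((p : ℂ) - 1) ^ 2 * ((p : ℂ) - 1) ^ f) * b (τ0 ∪ (τ1 ∪ τ2))) =
          ((p : ℂ) ^ 4 * Y) * (p * (((p : ℂ) - 1) ^ (f + 2) * ((p : ℂ) - 1) ^ a)) := by
        linear_combination h6
      rw [h5, one_mul, one_mul, e1, e2, e3] at h7
      linear_combination h7
  have hdec := decomp4 u v 1 b hcl
  refine ⟨fun κ => ((p : ℂ) ^ 4)⁻¹ * (b κ - cW u 1 v Finset.univ κ), fun τ hτ => ?_⟩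
  have h1 := hdec τ hτ
  have h2 : U τ - E * (p : ℂ)⁻¹ = ((p : ℂ) ^ 4)⁻¹ * (((p : ℂ) - 1) ^ frc v Finset.univ τ *
      (b τ - cW u 1 v Finset.univ τ)) := by
    rw [mul_sub, mul_sub, ← hUb, h.val]
    unfold cW
    rw [huv, hc4, show ((u⁻¹ : ℂˣ) : ℂ) = (p : ℂ)⁻¹ from rfl]
    obtain ⟨a, ha⟩ : ∃ a, 4 = frc v Finset.univ τ + a :=
      ⟨4 - frc v Finset.univ τ, by have := hfr τ; omega⟩
    have h4 : ((p : ℂ) - 1) ^ 4 = ((p : ℂ) - 1) ^ (frc v Finset.univ τ + a) := by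
      rw [← ha]
    rw [show 4 - frc v Finset.univ τ = a by omega, h4, pow_add]
    field_simp
  rw [h2, h1, Finset.mul_sum, Finset.mul_sum]
  refine Finset.sum_congr rfl fun κ _ => ?_
  unfold eP
  have h3 : ev1 p (pB v κ τ) = evL u (pB v κ τ) := rfl
  rw [h3]
  ring

end Pool.Agent.Y228.PL
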