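import Pool.Agent.Y228.PL.CR
import Pool.Agent.W422.LP.Zm

set_option autoImplicit false

/-!
# The integral over a polydisc as a sum, with the relations
-/

namespace Pool.Agent.Y228.PL

open MeasureTheory Pool.Agent.W426.SM Pool.Agent.W880.SM Pool.Agent.W425.PN
open Pool.Agent.W422.LP (PD PD_closed Wk)

/-- the conclusion -/
def ZMb {k : ℕ} (A : Fin 4 → ℕ) (m : Fin k → Fin 4 → ℕ) (c : Fin k → ℚ) (e : ℕ) : Prop :=
    ∃ S : Finset ℕ, ∀ (p : ℕ) [Fact p.Prime], p ∉ S →
      ∀ [MeasurableSpace (Fin 4 → PadicInt p)] [BorelSpace (Fin 4 → PadicInt p)],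
      ∃ (V : ℝ) (C₀ C₁ : Finset (Fin k) → ℝ), 0 < V ∧ CRelB m p C₀ C₁ ∧
        ∀ (κ : Fin 4 → ℕ) (s : ℂ), 0 < s.re →
          ∫ x in PD p κ, ((pval p (spoly A m c e) x : ℝ) : ℂ) ^ s
              ∂(Measure.addHaar : Measure (Fin 4 → PadicInt p)) =
            V * ∑' u : Fin 4 → ℕ,
              Wk κ p A m e s u *
                ((C₀ (Finset.univ.filter fun j => ∑ i, u i * m j i = gord m u) : ℂ) +
                  (C₁ (Finset.univ.filter fun j => ∑ i, u i * m j i = gord m u) : ℂ) *
                    ((p : ℂ) ^ (-(e * s)) / (1 - (p : ℂ) ^ (-(1 + e * s)))))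

theorem zmb {k : ℕ} (A : Fin 4 → ℕ) (m : Fin k → Fin 4 → ℕ) (c : Fin k → ℚ) (e : ℕ)
    (he : 0 < e) (h : ZMAb m c) : ZMb A m c e := by
  classical
  obtain ⟨S, hS⟩ := h
  refine ⟨S ∪ Finset.univ.biUnion (fun j => (c j).den.primeFactors), ?_⟩
  intro p hp hpS _ _
  obtain ⟨C₀, C₁, hCR, hC⟩ := hS p (fun h => hpS (Finset.mem_union_left _ h))
  have hcp : ∀ j, ‖(c j : Padic p)‖ ≤ 1 := by
    intro j
    apply Padic.norm_rat_le_one
    intro hd
    apply hpS
    apply Finset.mem_union_right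
    exact Finset.mem_biUnion.2 ⟨j, Finset.mem_univ _,
      Nat.mem_primeFactors.2 ⟨hp.out, hd, (c j).den_ne_zero⟩⟩
  set μ : Measure (Fin 4 → PadicInt p) := Measure.addHaar with hμ
  have hfin : μ Set.univ < ⊤ := isCompact_univ.measure_lt_top
  have hVpos : 0 < (μ Set.univ).toReal :=
    ENNReal.toReal_pos (isOpen_univ.measure_ne_zero μ Set.univ_nonempty) hfin.ne
  refine ⟨(μ Set.univ).toReal, C₀, C₁, hVpos, hCR, ?_⟩
  intro κ s hs
  have hs0 : s ≠ 0 := by
    rintro rfl
    simp at hs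
  have hp1 : (1 : ℝ) < p := by exact_mod_cast hp.out.one_lt
  have hfm : IsFiniteMeasure μ := ⟨hfin⟩
  set F0 : (Fin 4 → PadicInt p) → ℂ := fun x => ((pval p (spoly A m c e) x : ℝ) : ℂ) ^ s with hF0
  set F : (Fin 4 → PadicInt p) → ℂ := (PD p κ).indicator F0 with hF
  have hF0m : Measurable F0 :=
    (Complex.measurable_ofReal.comp (pval_continuous p A m c e).measurable).pow_const s
  have hFm : Measurable F := hF0m.indicator (PD_closed p κ).measurableSet
  have hF0b : ∀ x, ‖F0 x‖ ≤ 1 := by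
    intro x
    rw [hF0]
    simp only
    rw [Complex.norm_cpow_eq_rpow_re_of_nonneg (pval_nonneg p _ x) hs.ne']
    exact Real.rpow_le_one (pval_nonneg p _ x) (pval_le_one p A m c e hcp x) hs.le
  have hFb : ∀ x, ‖F x‖ ≤ 1 := by
    intro x
    rw [hF]
    exact (norm_indicator_le_norm_self F0 x).trans (hF0b x)
  have hFi : Integrable F μ :=
    Integrable.of_bound hFm.aestronglyMeasurable 1 (Filter.Eventually.of_forall hFb)
  have h0 : ∫ x in PD p κ, F0 x ∂μ = ∫ x, F x ∂μ :=
    (integral_indicator (PD_closed p κ).measurableSet).symm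
  have h1 : ∫ x in ⋃ v, W p m c v, F x ∂μ = ∫ x, F x ∂μ := by
    apply setIntegral_eq_integral_of_ae_compl_eq_zero
    have hnull : ∀ᵐ x ∂μ, ∀ i, x i ≠ 0 := by
      rw [ae_all_iff]
      intro i
      rw [ae_iff]
      simpa using null_coord p i
    filter_upwards [hnull] with x hx hxU
    have hg : gp p m c 0 x = 0 := by
      by_contra hg
      exact hxU (mem_iUnion_W p m c hcp x hx hg)
    have hz : F0 x = 0 := by
      rw [hF0]
      simp only
      rw [pval_spoly, hg, norm_zero, zero_pow he.ne', mul_zero, Complex.ofReal_zero,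
        Complex.zero_cpow hs0]
    rw [hF, Set.indicator_apply, hz, ite_self]
  have h2 : HasSum (fun v => ∫ x in W p m c v, F x ∂μ) (∫ x in ⋃ v, W p m c v, F x ∂μ) :=
    hasSum_integral_iUnion (fun v => (W_closed p m c v).measurableSet) (W_disj p m c)
      hFi.integrableOn
  have hPD : ∀ v, ∀ x ∈ W p m c v, (x ∈ PD p κ ↔ ∀ i, κ i ≤ v.1 i) := by
    intro v x hx
    refine forall_congr' fun i => ?_
    rw [hx.1 i, zpow_le_zpow_iff_right₀ hp1]
    omega
  have h3 : ∀ v, ∫ x in W p m c v, F x ∂μ =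
      if ∀ i, κ i ≤ v.1 i then ((μ (W p m c v)).toReal : ℂ) *
        (p : ℂ) ^ (-(s * ((ford A m e v.1 + e * v.2 : ℕ) : ℂ))) else 0 := by
    intro v
    by_cases hv : ∀ i, κ i ≤ v.1 i
    · rw [if_pos hv]
      have h4 : ∫ x in W p m c v, F x ∂μ =
          ∫ x in W p m c v, (p : ℂ) ^ (-(s * ((ford A m e v.1 + e * v.2 : ℕ) : ℂ))) ∂μ := by
        apply setIntegral_congr_fun (W_closed p m c v).measurableSet
        intro x hx
        show (PD p κ).indicator F0 x = _
        rw [Set.indicator_of_mem ((hPD v x hx).2 hv), hF0]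
        simp only
        rw [pval_W p A m c e v x hx, cpow_zpow]
      rw [h4, setIntegral_const]
      simp [Measure.real]
    · rw [if_neg hv]
      apply setIntegral_eq_zero_of_forall_eq_zero
      intro x hx
      show (PD p κ).indicator F0 x = _
      rw [Set.indicator_of_notMem (fun h => hv ((hPD v x hx).1 h))]
  rw [h1] at h2
  simp_rw [h3] at h2
  have h5 := h2.prod_fiberwise (g := fun u => (((μ Set.univ).toReal : ℝ) : ℂ) *
      (Wk κ p A m e s u *
        ((C₀ (Finset.univ.filter fun j => ∑ i, u i * m j i = gord m u) : ℂ) +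
          (C₁ (Finset.univ.filter fun j => ∑ i, u i * m j i = gord m u) : ℂ) *
            ((p : ℂ) ^ (-(e * s)) / (1 - (p : ℂ) ^ (-(1 + e * s))))))) ?_
  · rw [h0, ← h5.tsum_eq, tsum_mul_left]
  · intro u
    by_cases hu : ∀ i, κ i ≤ u i
    · have hWk : Wk κ p A m e s u =
          (p : ℂ) ^ (-(((∑ i, u i : ℕ) : ℂ) + s * ford A m e u)) := by
        unfold Wk
        rw [if_pos hu]
        rfl
      simp only [hu, hWk, implies_true, if_true]
      refine sum_l p (μ Set.univ).toReal
        (C₀ (Finset.univ.filter fun j => ∑ i, u i * m j i = gord m u))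
        (C₁ (Finset.univ.filter fun j => ∑ i, u i * m j i = gord m u)) (∑ i, u i)
        (ford A m e u) e s hs (fun l => (μ (W p m c (u, l))).toReal) ?_ ?_
      · have := (hC u).1
        simp only [W, Nat.cast_zero, add_zero]
        exact this
      · intro l
        have := (hC u).2 l
        simp only [W]
        push_cast at this ⊢
        exact this
    · have hWk : Wk κ p A m e s u = 0 := by
        unfold Wk
        rw [if_neg hu]
      simp only [hWk, zero_mul, mul_zero]
      rw [show (fun l : ℕ => if ∀ i, κ i ≤ ((u, l) : (Fin 4 → ℕ) × ℕ).1 i then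
        ((μ (W p m c (u, l))).toReal : ℂ) *
        (p : ℂ) ^ (-(s * ((ford A m e ((u, l) : (Fin 4 → ℕ) × ℕ).1 +
          e * ((u, l) : (Fin 4 → ℕ) × ℕ).2 : ℕ) : ℂ))) else 0) = fun _ => 0 from
        funext fun l => if_neg hu]
      exact hasSum_zero


end Pool.Agent.Y228.PL
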